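import Mathlib
import Pool.Agent.Results.MP_17e467_an.FreeZActionNonFDC

set_option autoImplicit false
set_option linter.unusedSectionVars false

/-!
The action of a discrete group induced from a free action of an infinite cyclic subgroup, and its
transformation groupoid.
-/

namespace Pool.Agent.Y469.FD

open H317F Topology
open Pool.Agent.Results.MP_17e467_an.FreeZActionNonFDC

/-- Topological amenability for groupoids whose unit space need not be compact: there is a net
`ξ i` of continuous compactly supported functions `G → [0, ∞)` with `∑_{h ∈ G^x} ξ i h ≤ 1` for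
all units `x`, tending to `1` uniformly on compact sets of units, and
`∑_{h ∈ G^{s g}} |ξ i (g h) - ξ i h| → 0` uniformly for `g` in compact subsets of `G`. -/
def AmenableLC {X G : Type} [TopologicalSpace X] [TopologicalSpace G] (𝒢 : TopGpd X G) : Prop :=
  ∃ (ι : Type) (_ : Preorder ι) (_ : IsDirectedOrder ι) (_ : Nonempty ι) (ξ : ι → G → ℝ),
    (∀ i, Continuous (ξ i)) ∧ (∀ i, HasCompactSupport (ξ i)) ∧ (∀ i g, 0 ≤ ξ i g) ∧
    (∀ i x, ∃ t ≤ 1, HasSum (fun h : {h : G // 𝒢.r h = x} => ξ i h) t) ∧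
    (∀ L : Set X, IsCompact L → ∀ ε > 0, ∃ i₀, ∀ i ≥ i₀, ∀ x ∈ L, ∃ t > 1 - ε,
      HasSum (fun h : {h : G // 𝒢.r h = x} => ξ i h) t) ∧
    ∀ K : Set G, IsCompact K → ∀ ε > 0, ∃ i₀, ∀ i ≥ i₀, ∀ g ∈ K, ∃ t < ε,
      HasSum (fun h : {h : G // 𝒢.r h = 𝒢.s g} => |ξ i (𝒢.mul g h) - ξ i h|) t

section Ind

variable {Γ : Type} [Group Γ] (φ : MZ →* Γ)

/-- the cosets of the cyclic subgroup, a discrete space -/
def Cos : Type := Γ ⧸ φ.range

instance : TopologicalSpace (Cos φ) := ⊥
instance : DiscreteTopology (Cos φ) := ⟨rfl⟩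
instance : MulAction Γ (Cos φ) := inferInstanceAs (MulAction Γ (Γ ⧸ φ.range))
instance [Countable Γ] : Countable (Cos φ) :=
  (Quotient.mk_surjective (s := QuotientGroup.leftRel φ.range)).countable

/-- representatives of the cosets -/
noncomputable def rep (c : Cos φ) : Γ := Quotient.out (s := QuotientGroup.leftRel φ.range) c

/-- the coset of an element -/
def cos (γ : Γ) : Cos φ := QuotientGroup.mk (s := φ.range) γ

lemma cos_rep (c : Cos φ) : cos φ (rep φ c) = c := Quotient.out_eq' c

lemma smul_cos (γ δ : Γ) : γ • cos φ δ = cos φ (γ * δ) := rfl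

lemma cos_eq {γ δ : Γ} : cos φ γ = cos φ δ ↔ γ⁻¹ * δ ∈ φ.range := QuotientGroup.eq

lemma ex_coc (γ : Γ) (c : Cos φ) : ∃ k : MZ, φ k = (rep φ (γ • c))⁻¹ * (γ * rep φ c) := by
  have h : cos φ (rep φ (γ • c)) = cos φ (γ * rep φ c) := by
    rw [cos_rep, ← smul_cos, cos_rep]
  exact (cos_eq φ).1 h

/-- the cocycle -/
noncomputable def coc (γ : Γ) (c : Cos φ) : MZ := (ex_coc φ γ c).choose

lemma φ_coc (γ : Γ) (c : Cos φ) : φ (coc φ γ c) = (rep φ (γ • c))⁻¹ * (γ * rep φ c) :=
  (ex_coc φ γ c).choose_spec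

variable {φ}

lemma coc_mul (hφ : Function.Injective φ) (γ δ : Γ) (c : Cos φ) :
    coc φ (γ * δ) c = coc φ γ (δ • c) * coc φ δ c := by
  apply hφ
  rw [map_mul, φ_coc, φ_coc, φ_coc, mul_smul]
  group

lemma coc_one (hφ : Function.Injective φ) (c : Cos φ) : coc φ 1 c = 1 := by
  apply hφ
  rw [φ_coc, one_smul, map_one]
  group

/-- the induced space -/
def IY (_ : Function.Injective φ) : Type := Cos φ × XT

variable {hφ : Function.Injective φ}

instance : TopologicalSpace (IY hφ) := inferInstanceAs (TopologicalSpace (Cos φ × XT))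
instance : T2Space (IY hφ) := inferInstanceAs (T2Space (Cos φ × XT))
instance : LocallyCompactSpace (IY hφ) := inferInstanceAs (LocallyCompactSpace (Cos φ × XT))
instance : TopologicalSpace.MetrizableSpace (IY hφ) :=
  inferInstanceAs (TopologicalSpace.MetrizableSpace (Cos φ × XT))
instance : SecondCountableTopology XT :=
  inferInstanceAs (SecondCountableTopology {z : ZZ // z ∈ XX})
instance [Countable Γ] : SecondCountableTopology (IY hφ) :=
  inferInstanceAs (SecondCountableTopology (Cos φ × XT))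

noncomputable instance : MulAction Γ (IY hφ) where
  smul γ y := (γ • y.1, coc φ γ y.1 • y.2)
  one_smul y := by
    show ((1 : Γ) • y.1, coc φ 1 y.1 • y.2) = y
    rw [one_smul, coc_one hφ, one_smul]
    rfl
  mul_smul γ δ y := by
    show ((γ * δ) • y.1, coc φ (γ * δ) y.1 • y.2) =
      (γ • δ • y.1, coc φ γ (δ • y.1) • coc φ δ y.1 • y.2)
    rw [mul_smul, coc_mul hφ, mul_smul]

lemma smul_def (γ : Γ) (y : IY hφ) : γ • y = (γ • y.1, coc φ γ y.1 • y.2) := rfl

instance : ContinuousConstSMul Γ (IY hφ) where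
  continuous_const_smul γ := by
    show Continuous (fun y : Cos φ × XT => (γ • y.1, coc φ γ y.1 • y.2))
    rw [continuous_prod_of_discrete_left]
    intro c
    have h1 : Continuous (fun z : XT => coc φ γ c • z) := continuous_const_smul (T := XT) _
    have h2 : Continuous (fun _ : XT => γ • c) := continuous_const
    exact h2.prodMk h1

lemma IY_free (γ : Γ) (y : IY hφ) (h : γ • y = y) : γ = 1 := by
  rw [smul_def] at h
  have h1 : γ • y.1 = y.1 := congrArg Prod.fst h
  have h2 : coc φ γ y.1 • y.2 = y.2 := congrArg Prod.snd h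
  have h3 := XT_free _ _ h2
  have h4 := φ_coc φ γ y.1
  rw [h3, h1, map_one, eq_comm, inv_mul_eq_one] at h4
  -- `rep = γ * rep`
  exact mul_eq_right.1 h4.symm

end Ind

end Pool.Agent.Y469.FD
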