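import Mathlib
import Pool.Agent.Y469.FD.Ind

set_option autoImplicit false
set_option linter.unusedSectionVars false

/-! The induced action is amenable. -/

namespace Pool.Agent.Y469.FD

open H317F Topology
open Pool.Agent.Results.MP_17e467_an.FreeZActionNonFDC

variable {Γ : Type} [Group Γ] {φ : MZ →* Γ} {hφ : Function.Injective φ}

/-- the parametrisation of a coset -/
noncomputable def par (c : Cos φ) (j : ℤ) : Γ := rep φ c * φ (Multiplicative.ofAdd j)

lemma par_inj (hφ : Function.Injective φ) (c : Cos φ) : Function.Injective (par c) := by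
  intro i j h
  have h1 := mul_left_cancel h
  exact Multiplicative.ofAdd.injective (hφ h1)

lemma par_shift (δ : Γ) (c : Cos φ) (j : ℤ) :
    δ * par c j = par (δ • c) (Multiplicative.toAdd (coc φ δ c) + j) := by
  unfold par
  rw [ofAdd_add, ofAdd_toAdd, map_mul, φ_coc]
  group

lemma mem_par (c : Cos φ) (γ : Γ) : (∃ j, par c j = γ) ↔ cos φ γ = c := by
  constructor
  · rintro ⟨j, rfl⟩
    conv_rhs => rw [← cos_rep φ c]
    rw [eq_comm, cos_eq]
    exact ⟨Multiplicative.ofAdd j, by unfold par; group⟩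
  · intro h
    have h1 : cos φ (rep φ c) = cos φ γ := by rw [cos_rep, h]
    obtain ⟨k, hk⟩ := (cos_eq φ).1 h1
    refine ⟨Multiplicative.toAdd k, ?_⟩
    unfold par
    rw [ofAdd_toAdd, hk]
    group

/-- the averaging measures on the cosets -/
noncomputable def mm (n : ℕ) (c : Cos φ) (γ : Γ) : ℝ := Function.extend (par c) (xi n) 0 γ

lemma mm_par (hφ : Function.Injective φ) (n : ℕ) (c : Cos φ) (j : ℤ) :
    mm n c (par c j) = xi n j := (par_inj hφ c).extend_apply _ _ _

lemma mm_zero (n : ℕ) (c : Cos φ) (γ : Γ) (h : cos φ γ ≠ c) : mm n c γ = 0 := by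
  unfold mm
  rw [Function.extend_apply' _ _ _ (fun h' => h ((mem_par c γ).1 h'))]
  rfl

lemma mm_nonneg (hφ : Function.Injective φ) (n : ℕ) (c : Cos φ) (γ : Γ) : 0 ≤ mm n c γ := by
  by_cases h : cos φ γ = c
  · obtain ⟨j, rfl⟩ := (mem_par c γ).2 h
    rw [mm_par hφ]
    exact xi_nonneg _ _
  · rw [mm_zero n c γ h]

lemma hasSum_mm (hφ : Function.Injective φ) (n : ℕ) (c : Cos φ) : HasSum (mm n c) 1 := by
  have := (hasSum_extend_zero (par_inj hφ c)).2 (hasSum_xi n)
  exact this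

lemma hasSum_mm_diff (hφ : Function.Injective φ) (n : ℕ) (δ : Γ) (c : Cos φ) :
    ∃ t ≤ 4 * |((Multiplicative.toAdd (coc φ δ c) : ℤ) : ℝ)| / ((n : ℝ) + 1),
      HasSum (fun γ : Γ => |mm n (δ • c) (δ * γ) - mm n c γ|) t := by
  obtain ⟨t, ht, hs⟩ := hasSum_xi_diff n (Multiplicative.toAdd (coc φ δ c))
  refine ⟨t, ht, ?_⟩
  rw [← (par_inj hφ c).hasSum_iff]
  · convert hs using 2 with j
    show |mm n (δ • c) (δ * par c j) - mm n c (par c j)| = _
    rw [par_shift, mm_par hφ, mm_par hφ]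
  · intro γ hγ
    have h1 : cos φ γ ≠ c := fun h => hγ ((mem_par c γ).2 h)
    rw [mm_zero n c γ h1, mm_zero n (δ • c) (δ * γ), sub_self, abs_zero]
    intro h
    apply h1
    rw [← smul_cos] at h
    exact smul_left_cancel δ h

lemma fst_smul (γ : Γ) (y : IY hφ) : (γ • y).1 = γ • y.1 := rfl

lemma fst_smul_inv (γ : Γ) (y : IY hφ) : γ • (γ⁻¹ • y).1 = y.1 := by
  rw [fst_smul, smul_inv_smul]

variable [TopologicalSpace Γ] [DiscreteTopology Γ]

open Classical in
/-- the averaging functions -/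
noncomputable def xx (hφ : Function.Injective φ) (i : ℕ × Finset (Cos φ)) (g : Γ × IY hφ) : ℝ :=
  if g.1 • g.2.1 ∈ i.2 then mm i.1 (g.1 • g.2.1) g.1 else 0

theorem induced_amenable : AmenableLC (transGpd Γ (IY hφ)) := by
  classical
  refine ⟨ℕ × Finset (Cos φ), inferInstance, inferInstance, inferInstance, xx hφ,
    ?_, ?_, ?_, ?_, ?_, ?_⟩
  · intro i
    have h1 : Continuous (fun q : Γ × Cos φ =>
        if q.1 • q.2 ∈ i.2 then mm i.1 (q.1 • q.2) q.1 else 0) := continuous_of_discreteTopology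
    have h2 : Continuous (fun g : Γ × IY hφ => (g.1, g.2.1)) :=
      continuous_fst.prodMk ((continuous_fst (X := Cos φ) (Y := XT)).comp continuous_snd)
    exact h1.comp h2
  · rintro ⟨n, F⟩
    -- the finite set of group elements
    let A : Set Γ := ⋃ c ∈ F, par c '' (Set.Icc (0 : ℤ) n)
    have hA : A.Finite := by
      apply Set.Finite.biUnion F.finite_toSet
      intro c _
      exact (Set.finite_Icc _ _).image _
    let B : Set (Cos φ) := ⋃ γ ∈ A, ⋃ c ∈ F, {γ⁻¹ • c}
    have hB : B.Finite := by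
      apply Set.Finite.biUnion hA
      intro γ _
      apply Set.Finite.biUnion F.finite_toSet
      intro c _
      exact Set.finite_singleton _
    have hc : IsCompact (A ×ˢ (B ×ˢ (Set.univ : Set XT)) : Set (Γ × (Cos φ × XT))) :=
      hA.isCompact.prod (hB.isCompact.prod isCompact_univ)
    apply HasCompactSupport.intro (K := (A ×ˢ (B ×ˢ (Set.univ : Set XT)) : Set (Γ × (Cos φ × XT)))) hc
    rintro ⟨γ, c, z⟩ hx
    unfold xx
    split_ifs with hF
    · by_contra hne
      apply hx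
      have h1 : cos φ γ = γ • c := by
        by_contra h; exact hne (mm_zero _ _ _ h)
      obtain ⟨j, hj⟩ := (mem_par _ _).2 h1
      have hjn : j ∈ Set.Icc (0 : ℤ) n := by
        by_contra h
        apply hne
        show mm n (γ • c) γ = 0
        conv_lhs => rw [← hj]
        have h2 : mm n (γ • c) (par (γ • c) j) = xi n j := mm_par hφ _ _ _
        rw [hj] at h2
        rw [hj, h2]
        unfold xi
        exact if_neg h
      have hγA : γ ∈ A := Set.mem_biUnion hF ⟨j, hjn, hj⟩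
      refine ⟨hγA, Set.mem_biUnion hγA (Set.mem_biUnion hF ?_), Set.mem_univ _⟩
      show c = γ⁻¹ • γ • c
      rw [inv_smul_smul]
    · rfl
  · intro i g
    unfold xx
    split_ifs
    · exact mm_nonneg hφ _ _ _
    · exact le_rfl
  · intro i x
    suffices h : ∃ t ≤ (1:ℝ), HasSum (fun γ : Γ => xx hφ i (γ, γ⁻¹ • x)) t by
      obtain ⟨t, ht, hs⟩ := h
      exact ⟨t, ht, (rangeEquiv Γ (IY hφ) x).hasSum_iff.1 hs⟩
    have hval : ∀ γ : Γ, xx hφ i (γ, γ⁻¹ • x) = if x.1 ∈ i.2 then mm i.1 x.1 γ else 0 := by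
      intro γ
      unfold xx
      rw [fst_smul_inv]
    simp only [hval]
    by_cases h : x.1 ∈ i.2
    · simp only [h, if_true]
      exact ⟨1, le_rfl, hasSum_mm hφ _ _⟩
    · simp only [h, if_false]
      exact ⟨0, zero_le_one, hasSum_zero⟩
  · intro L hL ε hε
    have h1 : IsCompact ((fun y : IY hφ => y.1) '' L) :=
      hL.image (continuous_fst (X := Cos φ) (Y := XT))
    have h2 := isCompact_iff_finite.mp h1
    refine ⟨(0, h2.toFinset), fun i hi x hx => ⟨1, by linarith, ?_⟩⟩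
    rw [← (rangeEquiv Γ (IY hφ) x).hasSum_iff]
    have hxi : x.1 ∈ i.2 := hi.2 (h2.mem_toFinset.2 ⟨x, hx, rfl⟩)
    have hval : ∀ γ : Γ, xx hφ i (γ, γ⁻¹ • x) = mm i.1 x.1 γ := by
      intro γ
      unfold xx
      rw [fst_smul_inv, if_pos hxi]
    have h3 : HasSum (fun γ : Γ => xx hφ i (γ, γ⁻¹ • x)) 1 := by
      simp only [hval]
      exact hasSum_mm hφ i.1 x.1
    exact h3
  · intro K hK ε hε
    have h1 : IsCompact ((fun g : Γ × IY hφ => (g.1, g.2.1)) '' K) :=
      hK.image (continuous_fst.prodMk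
        ((continuous_fst (X := Cos φ) (Y := XT)).comp continuous_snd))
    have h2 := isCompact_iff_finite.mp h1
    obtain ⟨M, hM⟩ := (h2.image (fun q : Γ × Cos φ =>
      (Multiplicative.toAdd (coc φ q.1 q.2)).natAbs)).bddAbove
    obtain ⟨n0, hn0⟩ := exists_nat_gt (4 * (M : ℝ) / ε)
    refine ⟨(n0, h2.toFinset.image (fun q => q.2) ∪ h2.toFinset.image (fun q => q.1 • q.2)),
      fun i hi g hg => ?_⟩
    have hmem : (g.1, g.2.1) ∈ h2.toFinset := h2.mem_toFinset.2 ⟨g, hg, rfl⟩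
    have hF1 : g.2.1 ∈ i.2 :=
      hi.2 (Finset.mem_union_left _ (Finset.mem_image.2 ⟨_, hmem, rfl⟩))
    have hF2 : g.1 • g.2.1 ∈ i.2 :=
      hi.2 (Finset.mem_union_right _ (Finset.mem_image.2 ⟨_, hmem, rfl⟩))
    obtain ⟨t, ht1, ht2⟩ := hasSum_mm_diff hφ i.1 g.1 g.2.1
    refine ⟨t, ht1.trans_lt ?_, ?_⟩
    · have h4 : |((Multiplicative.toAdd (coc φ g.1 g.2.1) : ℤ) : ℝ)| ≤ M := by
        have := hM ⟨(g.1, g.2.1), ⟨g, hg, rfl⟩, rfl⟩
        have h5 : (((Multiplicative.toAdd (coc φ g.1 g.2.1)).natAbs : ℕ) : ℝ) ≤ M := by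
          exact_mod_cast this
        rw [Nat.cast_natAbs] at h5
        push_cast at h5
        exact h5
      rw [div_lt_iff₀ (by positivity)]
      rw [div_lt_iff₀ hε] at hn0
      have h6 : (n0 : ℝ) ≤ i.1 := by exact_mod_cast hi.1
      nlinarith
    · rw [← (rangeEquiv Γ (IY hφ) _).hasSum_iff]
      have hval : ∀ γ : Γ, |xx hφ i (g.1 * γ, γ⁻¹ • g.2) - xx hφ i (γ, γ⁻¹ • g.2)| =
          |mm i.1 (g.1 • g.2.1) (g.1 * γ) - mm i.1 g.2.1 γ| := by
        intro γ
        unfold xx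
        rw [mul_smul, fst_smul_inv, if_pos hF1, if_pos hF2]
      have h3 : HasSum (fun γ : Γ =>
          |xx hφ i (g.1 * γ, γ⁻¹ • g.2) - xx hφ i (γ, γ⁻¹ • g.2)|) t := by
        simp only [hval]
        exact ht2
      exact h3

end Pool.Agent.Y469.FD
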