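import Mathlib
import Pool.Agent.Y469.FD.Amen

set_option autoImplicit false
set_option linter.unusedSectionVars false

/-! The induced action does not have finite dynamical complexity. -/

namespace Pool.Agent.Y469.FD

open H317F Topology
open Pool.Agent.Results.MP_17e467_an.FreeZActionNonFDC

variable {Γ : Type} [Group Γ] {φ : MZ →* Γ} {hφ : Function.Injective φ}

variable (φ) in
/-- the base coset -/
def c0 : Cos φ := cos φ 1

lemma smul_c0 (a : MZ) : φ a • c0 φ = c0 φ := by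
  unfold c0
  rw [smul_cos, cos_eq]
  exact ⟨a⁻¹, by simp⟩

lemma coc_c0 (hφ : Function.Injective φ) (a : MZ) : coc φ (φ a) (c0 φ) = a := by
  have h1 : cos φ (rep φ (c0 φ)) = cos φ 1 := cos_rep φ _
  obtain ⟨b, hb⟩ := (cos_eq φ).1 h1
  apply hφ
  rw [φ_coc, smul_c0]
  have h2 : rep φ (c0 φ) = φ b⁻¹ := by
    rw [map_inv, hb]; group
  rw [h2, ← map_mul, ← map_inv, ← map_mul]
  congr 1
  rw [inv_inv, mul_comm a, mul_inv_cancel_left]

/-- the embedding of the groupoid -/
def emb (hφ : Function.Injective φ) (g : GG) : Γ × IY hφ := (φ g.1, (c0 φ, g.2))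

lemma smul_base (a : MZ) (z : XT) : φ a • (show IY hφ from (c0 φ, z)) = (c0 φ, a • z) := by
  rw [smul_def]
  show (φ a • c0 φ, coc φ (φ a) (c0 φ) • z) = (c0 φ, a • z)
  rw [smul_c0, coc_c0 hφ]

variable [TopologicalSpace Γ] [DiscreteTopology Γ]

lemma emb_cont : Continuous (emb hφ) := by
  have h1 : Continuous (fun g : GG => φ g.1) :=
    (continuous_of_discreteTopology (f := fun a : MZ => φ a)).comp continuous_fst
  have h2 : Continuous (fun g : GG => ((c0 φ, g.2) : Cos φ × XT)) :=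
    continuous_const.prodMk continuous_snd
  exact h1.prodMk h2

lemma emb_open : IsOpenMap (emb hφ) := by
  have h1 : IsOpenMap (fun a : MZ => φ a) := fun U _ => isOpen_discrete _
  have h2 : IsOpenMap (fun z : XT => ((c0 φ, z) : Cos φ × XT)) := by
    intro U hU
    have : (fun z : XT => ((c0 φ, z) : Cos φ × XT)) '' U = {c0 φ} ×ˢ U := by
      ext ⟨c, z⟩
      simp only [Set.mem_image, Prod.mk.injEq, Set.mem_prod, Set.mem_singleton_iff]
      constructor
      · rintro ⟨w, hw, h1, h2⟩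
        exact ⟨h1.symm, h2 ▸ hw⟩
      · rintro ⟨h1, h2⟩
        exact ⟨z, h2, h1.symm, rfl⟩
    rw [this]
    exact (isOpen_discrete _).prod hU
  exact h1.prodMap h2

/-- the restriction of a set of arrows -/
def res (hφ : Function.Injective φ) (H : Set (Γ × IY hφ)) : Set GG := emb hφ ⁻¹' H

lemma r_emb (g : GG) : (transGpd Γ (IY hφ)).r (emb hφ g) = (c0 φ, Zg.r g) := smul_base g.1 g.2

lemma s_emb (g : GG) : (transGpd Γ (IY hφ)).s (emb hφ g) = (c0 φ, Zg.s g) := rfl

lemma emb_mul (g h : GG) : (transGpd Γ (IY hφ)).mul (emb hφ g) (emb hφ h) =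
    emb hφ (Zg.mul g h) := by
  show (φ g.1 * φ h.1, (c0 φ, h.2)) = (φ (g.1 * h.1), (c0 φ, h.2))
  rw [map_mul]

lemma emb_inv (g : GG) : (transGpd Γ (IY hφ)).inv (emb hφ g) = emb hφ (Zg.inv g) := by
  show ((φ g.1)⁻¹, φ g.1 • (show IY hφ from (c0 φ, g.2))) = (φ (g.1⁻¹), (c0 φ, g.1 • g.2))
  rw [smul_base, map_inv]
  rfl

lemma res_subgpd {H : Set (Γ × IY hφ)} (hH : (transGpd Γ (IY hφ)).IsSubgpd H) :
    Zg.IsSubgpd (res hφ H) where
  mul_mem g hg h hh hgh := by
    show emb hφ (Zg.mul g h) ∈ H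
    rw [← emb_mul]
    apply hH.mul_mem _ hg _ hh
    rw [r_emb, s_emb, hgh]
  inv_mem g hg := by
    show emb hφ (Zg.inv g) ∈ H
    rw [← emb_inv]
    exact hH.inv_mem _ hg

lemma res_open {H : Set (Γ × IY hφ)} (hH : IsOpen H) : IsOpen (res hφ H) :=
  hH.preimage emb_cont

lemma res_relCompact {H : Set (Γ × IY hφ)} (hc : IsCompact (closure H)) :
    IsCompact (closure (res hφ H)) := by
  have h1 : ((fun g : Γ × IY hφ => g.1) '' closure H).Finite :=
    isCompact_iff_finite.mp (hc.image continuous_fst)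
  have h2 : (φ ⁻¹' ((fun g : Γ × IY hφ => g.1) '' closure H)).Finite :=
    h1.preimage (hφ.injOn)
  have h3 : IsCompact ((φ ⁻¹' ((fun g : Γ × IY hφ => g.1) '' closure H)) ×ˢ
      (Set.univ : Set XT)) := h2.isCompact.prod isCompact_univ
  apply h3.of_isClosed_subset isClosed_closure
  have h4 : closure (res hφ H) ⊆ emb hφ ⁻¹' closure H :=
    closure_minimal (Set.preimage_mono subset_closure) (isClosed_closure.preimage emb_cont)
  intro g hg
  exact ⟨⟨emb hφ g, h4 hg, rfl⟩, Set.mem_univ _⟩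

lemma res_gen (A : Set (Γ × IY hφ)) (B : Set GG) (h : B ⊆ res hφ A) :
    Zg.gen B ⊆ res hφ ((transGpd Γ (IY hφ)).gen A) := by
  intro g hg
  apply hg
  refine ⟨res_subgpd (TopGpd.gen_isSubgpd A), ?_⟩
  intro b hb
  exact TopGpd.subset_gen A (h hb)

lemma admissible (P : Set (Γ × IY hφ) → Set (Γ × IY hφ) → Prop)
    (hP : ∀ K H, closure K ⊆ H → P K H) :
    IsAdmissibleFor P (transGpd Γ (IY hφ))
      {H | (transGpd Γ (IY hφ)).IsOpenSubgpd H ∧ ¬ Rich (res hφ H)} := by
  refine ⟨fun H hH => hH.1, fun H hH hc => ⟨hH, ?_⟩, ?_⟩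
  · exact not_rich_of_relCompact (res_subgpd hH.2) (res_relCompact hc)
  intro H hH hdec
  refine ⟨hH, fun hr => ?_⟩
  obtain ⟨K, hKo, hKH, hKc, hKcl, hK⟩ := rich_step (res_open hH.1) (res_subgpd hH.2) hr
  have hcl : closure (emb hφ '' K) ⊆ emb hφ '' closure K :=
    closure_minimal (Set.image_mono subset_closure) (hKc.image emb_cont).isClosed
  have hsub : closure (emb hφ '' K) ⊆ H := by
    refine hcl.trans ?_
    rintro _ ⟨g, hg, rfl⟩
    exact hKcl hg
  obtain ⟨U₀, U₁, h3, h4, h5, ⟨C₀, h6, h6'⟩, ⟨C₁, h7, h7'⟩⟩ := hdec (emb hφ '' K)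
    (subset_closure.trans hsub) (emb_open _ hKo)
    ((hKc.image emb_cont).of_isClosed_subset isClosed_closure hcl) (hP _ H hsub)
  -- the two pieces
  have hincl : Continuous (fun z : XT => (show IY hφ from (c0 φ, z))) := by
    have : Continuous (fun z : XT => ((c0 φ, z) : Cos φ × XT)) :=
      continuous_const.prodMk continuous_id
    exact this
  have hpiece : ∀ (U : Set (IY hφ)) (C : Set (Γ × IY hφ)),
      (transGpd Γ (IY hφ)).gen {g ∈ emb hφ '' K | (transGpd Γ (IY hφ)).s g ∈ U ∧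
        (transGpd Γ (IY hφ)).r g ∈ U} ⊆ C →
      Zg.gen {g ∈ K | Zg.s g ∈ (fun z : XT => (show IY hφ from (c0 φ, z))) ⁻¹' U ∧
        Zg.r g ∈ (fun z : XT => (show IY hφ from (c0 φ, z))) ⁻¹' U} ⊆ res hφ C := by
    intro U C hC
    refine (res_gen {g ∈ emb hφ '' K | (transGpd Γ (IY hφ)).s g ∈ U ∧
        (transGpd Γ (IY hφ)).r g ∈ U} _ ?_).trans (Set.preimage_mono hC)
    rintro g ⟨hg, h1, h2⟩
    refine ⟨⟨g, hg, rfl⟩, h1, ?_⟩
    rw [r_emb]
    exact h2
  have hcov : Zg.units (res hφ H) ⊆ (fun z : XT => (show IY hφ from (c0 φ, z))) ⁻¹' U₀ ∪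
      (fun z : XT => (show IY hφ from (c0 φ, z))) ⁻¹' U₁ := by
    intro z hz
    have hz' : (φ 1, (c0 φ, z)) ∈ H := hz
    rw [map_one] at hz'
    have h8 : (show IY hφ from (c0 φ, z)) ∈ (transGpd Γ (IY hφ)).units H := hz'
    rw [h5] at h8
    exact h8
  rcases hK _ _ (h3.preimage hincl) (h4.preimage hincl) hcov with h | h
  · exact h6.2 (h.mono (hpiece _ _ h6'))
  · exact h7.2 (h.mono (hpiece _ _ h7'))

theorem not_fdc : ¬ HasFDC (transGpd Γ (IY hφ)) ∧ ¬ HasWeakFDC (transGpd Γ (IY hφ)) := by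
  constructor
  · intro hD
    exact (hD _ (admissible _ fun _ _ _ => trivial)).2 rich_univ
  · intro hD
    exact (hD _ (admissible _ fun _ _ h => h)).2 rich_univ

/-- **Negative part**: every discrete group with an element of infinite order has a free amenable
action on a locally compact metrizable space without finite dynamical complexity. -/
theorem negative (Γ : Type) [Group Γ] [TopologicalSpace Γ] [DiscreteTopology Γ]
    (h : ∃ g : Γ, ¬ IsOfFinOrder g) :
    ∃ (X : Type) (_ : TopologicalSpace X) (_ : MulAction Γ X) (_ : ContinuousConstSMul Γ X),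
      LocallyCompactSpace X ∧ T2Space X ∧ TopologicalSpace.MetrizableSpace X ∧
      (Countable Γ → SecondCountableTopology X) ∧
      (∀ (γ : Γ) (x : X), γ • x = x → γ = 1) ∧ AmenableLC (transGpd Γ X) ∧
      ¬ HasFDC (transGpd Γ X) ∧ ¬ HasWeakFDC (transGpd Γ X) := by
  obtain ⟨g, hg⟩ := h
  have hφ : Function.Injective (zpowersHom Γ g) := by
    intro a b hab
    rw [zpowersHom_apply, zpowersHom_apply] at hab
    exact Multiplicative.toAdd.injective (injective_zpow_iff_not_isOfFinOrder.2 hg hab)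
  exact ⟨IY hφ, inferInstance, inferInstance, inferInstance, inferInstance, inferInstance,
    inferInstance, fun _ => inferInstance, IY_free, induced_amenable, not_fdc⟩

end Pool.Agent.Y469.FD
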