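import Mathlib
import Pool.Agent.Results.MP_17e467_an.FreeZActionNonFDC

set_option autoImplicit false
set_option linter.unusedSectionVars false

/-! Locally finite groups: finite decomposition complexity, and all actions have finite dynamical
complexity. Solvable torsion groups are locally finite. -/

namespace Pool.Agent.Y469.FD

open H317F Topology
open Pool.Agent.Results.MP_17e467_an.FreeZActionNonFDC

/-- locally finite groups -/
def LocFin (Γ : Type) [Group Γ] : Prop :=
  ∀ S : Set Γ, S.Finite → ((Subgroup.closure S : Subgroup Γ) : Set Γ).Finite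

lemma weak_of_fdc {X G : Type} [TopologicalSpace X] [TopologicalSpace G] {𝒢 : TopGpd X G}
    (h : HasFDC 𝒢) : HasWeakFDC 𝒢 := by
  intro 𝒞 h𝒞
  apply h
  refine ⟨h𝒞.openSubgpd, h𝒞.relCompact_mem, fun H hH hdec => h𝒞.closed H hH ?_⟩
  intro K hK hKo hKc _
  exact hdec K hK hKo hKc trivial

theorem pos_fdc {Γ : Type} [Group Γ] [TopologicalSpace Γ] [DiscreteTopology Γ] (hΓ : LocFin Γ)
    (X : Type) [TopologicalSpace X] [LocallyCompactSpace X] [T2Space X] [MulAction Γ X]
    [ContinuousConstSMul Γ X] : HasFDC (transGpd Γ X) := by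
  intro 𝒞 h𝒞
  have hus : (transGpd Γ X).IsSubgpd Set.univ :=
    ⟨fun _ _ _ _ _ => trivial, fun _ _ => trivial⟩
  apply h𝒞.closed _ ⟨isOpen_univ, hus⟩
  intro K _ hKo hKc _
  have hS : ((fun g : Γ × X => g.1) '' closure K).Finite :=
    isCompact_iff_finite.mp (hKc.image continuous_fst)
  set F : Subgroup Γ := Subgroup.closure ((fun g : Γ × X => g.1) '' closure K) with hF
  have hFf : (F : Set Γ).Finite := hΓ _ hS
  obtain ⟨L, hLc, hL⟩ := exists_compact_superset (hKc.image (continuous_snd (X := Γ) (Y := X)))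
  let W : Set X := ⋃ f ∈ (F : Set Γ), (fun x => f • x) '' interior L
  let M : Set X := ⋃ f ∈ (F : Set Γ), (fun x => f • x) '' L
  have hWo : IsOpen W := by
    apply isOpen_biUnion
    intro f _
    exact (Homeomorph.smul f).isOpenMap _ isOpen_interior
  have hMc : IsCompact M := by
    apply hFf.isCompact_biUnion
    intro f _
    exact hLc.image (continuous_const_smul f)
  have hWM : W ⊆ M := Set.biUnion_mono le_rfl fun f _ => Set.image_mono interior_subset
  have hWinv : ∀ f ∈ F, ∀ x ∈ W, f • x ∈ W := by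
    intro f hf x hx
    simp only [W, Set.mem_iUnion] at hx ⊢
    obtain ⟨f', hf', y, hy, rfl⟩ := hx
    exact ⟨f * f', F.mul_mem hf hf', y, hy, by simp only [mul_smul]⟩
  let H₁ : Set (Γ × X) := (F : Set Γ) ×ˢ W
  have hH₁o : IsOpen H₁ := (isOpen_discrete _).prod hWo
  have hH₁s : (transGpd Γ X).IsSubgpd H₁ := by
    constructor
    · rintro g ⟨hg1, hg2⟩ h ⟨hh1, hh2⟩ hgh
      exact ⟨F.mul_mem hg1 hh1, hh2⟩
    · rintro g ⟨hg1, hg2⟩
      exact ⟨F.inv_mem hg1, hWinv _ hg1 _ hg2⟩
  have hH₁c : IsCompact (closure H₁) := by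
    have hc : IsCompact ((F : Set Γ) ×ˢ M) := hFf.isCompact.prod hMc
    exact hc.of_isClosed_subset isClosed_closure
      (closure_minimal (Set.prod_mono le_rfl hWM) hc.isClosed)
  have hmem : H₁ ∈ 𝒞 := h𝒞.relCompact_mem _ ⟨hH₁o, hH₁s⟩ hH₁c
  have hKH : K ⊆ H₁ := by
    intro g hg
    have hg' := subset_closure hg
    refine ⟨Subgroup.subset_closure ⟨g, hg', rfl⟩, ?_⟩
    simp only [W, Set.mem_iUnion]
    exact ⟨1, F.one_mem, g.2, hL ⟨g, hg', rfl⟩, one_smul _ _⟩
  refine ⟨Set.univ, Set.univ, isOpen_univ, isOpen_univ, ?_, ⟨H₁, hmem, ?_⟩, ⟨H₁, hmem, ?_⟩⟩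
  · rw [Set.union_univ]
    exact Set.eq_univ_of_forall fun x => trivial
  · intro g hg
    exact hg H₁ ⟨hH₁s, fun g hg => hKH hg.1⟩
  · intro g hg
    exact hg H₁ ⟨hH₁s, fun g hg => hKH hg.1⟩

section Solv

variable {Γ : Type} [Group Γ]

/-- A torsion group with locally finite commutator subgroup (in the sense of generated subgroups)
inside a term of the derived series. -/
lemma step (htor : ∀ g : Γ, IsOfFinOrder g) (D : Subgroup Γ)
    (hD : ∀ S : Set Γ, S.Finite → S ⊆ (⁅D, D⁆ : Subgroup Γ) →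
      ((Subgroup.closure S : Subgroup Γ) : Set Γ).Finite)
    (S : Set Γ) (hS : S.Finite) (hSD : S ⊆ D) :
    ((Subgroup.closure S : Subgroup Γ) : Set Γ).Finite := by
  set G₀ : Subgroup Γ := Subgroup.closure S with hG₀
  have hfg : Group.FG G₀ := by
    rw [Group.fg_iff_subgroup_fg]
    exact (Subgroup.fg_iff _).2 ⟨S, rfl, hS⟩
  -- the abelianization is finite
  have hab : Finite (Abelianization G₀) := by
    have hfg' : Group.FG (Abelianization G₀) :=
      Group.fg_of_surjective (f := Abelianization.of) (QuotientGroup.mk'_surjective _)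
    have htor' : IsMulTorsion (Abelianization G₀) := by
      intro a
      obtain ⟨g, rfl⟩ : ∃ g, Abelianization.of g = a := QuotientGroup.mk'_surjective _ a
      apply MonoidHom.isOfFinOrder
      have h0 := htor (g : Γ)
      obtain ⟨n, hn, hg⟩ := isOfFinOrder_iff_pow_eq_one.1 h0
      exact isOfFinOrder_iff_pow_eq_one.2 ⟨n, hn, Subtype.ext (by simpa using hg)⟩
    exact CommGroup.finite_of_fg_isMulTorsion _ htor'
  have hidx : (commutator G₀).FiniteIndex := by
    have : Finite (G₀ ⧸ commutator G₀) := hab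
    exact Subgroup.finiteIndex_of_finite_quotient
  have hcfg : (commutator G₀).FG := by
    have := Subgroup.fg_of_index_ne_zero (commutator G₀)
    rwa [Group.fg_iff_subgroup_fg] at this
  obtain ⟨T, hT, hTf⟩ := (Subgroup.fg_iff _).1 hcfg
  have hle : G₀ ≤ D := (Subgroup.closure_le _).2 hSD
  have h1 : ((commutator G₀).map G₀.subtype : Subgroup Γ) = Subgroup.closure (G₀.subtype '' T) := by
    rw [← hT, MonoidHom.map_closure]
  have h2 : ((commutator G₀).map G₀.subtype : Subgroup Γ) ≤ ⁅D, D⁆ := by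
    rw [commutator_def, Subgroup.map_commutator]
    apply Subgroup.commutator_mono
    · rintro _ ⟨x, _, rfl⟩
      exact hle x.2
    · rintro _ ⟨x, _, rfl⟩
      exact hle x.2
  have h3 : ((Subgroup.closure (G₀.subtype '' T) : Subgroup Γ) : Set Γ).Finite := by
    apply hD _ (hTf.image _)
    intro x hx
    exact h2 (h1 ▸ Subgroup.subset_closure hx)
  have h4 : Finite (commutator G₀) := by
    have h5 : ((commutator G₀).map G₀.subtype : Set Γ).Finite := by rw [h1]; exact h3
    have h6 : ((commutator G₀ : Subgroup G₀) : Set G₀).Finite := by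
      rw [Subgroup.coe_map] at h5
      exact h5.of_finite_image (Subtype.val_injective.injOn)
    exact h6.to_subtype
  have h5 : Finite G₀ := by
    have : Finite (G₀ ⧸ commutator G₀) := hab
    exact Finite.of_subgroup_quotient (commutator G₀)
  exact Set.toFinite _

theorem locFin_of_solvable [Group.IsSolvable Γ] (htor : ∀ g : Γ, IsOfFinOrder g) : LocFin Γ := by
  obtain ⟨n, hn⟩ := Group.IsSolvable.solvable (G := Γ)
  have key : ∀ k ≤ n, ∀ S : Set Γ, S.Finite → S ⊆ derivedSeries Γ (n - k) →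
      ((Subgroup.closure S : Subgroup Γ) : Set Γ).Finite := by
    intro k
    induction k with
    | zero =>
      intro _ S _ hS
      have : Subgroup.closure S ≤ (⊥ : Subgroup Γ) := by
        rw [Subgroup.closure_le, ← hn]
        exact hS
      rw [le_bot_iff.1 this]
      exact Set.finite_singleton (1 : Γ)
    | succ k ih =>
      intro hk S hS hSD
      apply step htor (derivedSeries Γ (n - (k + 1))) _ S hS hSD
      intro T hT hTD
      apply ih (by omega) T hT
      have : n - k = (n - (k + 1)) + 1 := by omega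
      rw [this, derivedSeries_succ]
      exact hTD
  intro S hS
  apply key n le_rfl S hS
  rw [Nat.sub_self, derivedSeries_zero]
  exact fun _ _ => trivial

end Solv

section Dec

variable {Γ : Type} [Group Γ]

lemma left_one {d : Γ → Γ → ℝ} (hd : IsProperLeftInvMetric d) (x y : Γ) :
    d 1 (x⁻¹ * y) = d x y := by
  rw [← hd.left_inv x 1 (x⁻¹ * y)]
  simp

theorem locFin_groupFDC [Countable Γ] (hΓ : LocFin Γ) : GroupFDC Γ := by
  classical
  constructor
  · -- the metric
    obtain ⟨e, he⟩ := exists_surjective_nat Γ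
    let F : ℕ → Subgroup Γ := fun n => Subgroup.closure (e '' Set.Iio n)
    have hFmono : Monotone F := fun m n h =>
      Subgroup.closure_mono (Set.image_mono (Set.Iio_subset_Iio h))
    have hF0 : F 0 = ⊥ := by
      show Subgroup.closure (e '' Set.Iio 0) = ⊥
      simp
    have hFf : ∀ n, (F n : Set Γ).Finite := fun n => hΓ _ ((Set.finite_Iio n).image _)
    have hex : ∀ x : Γ, ∃ n, x ∈ F n := by
      intro x
      obtain ⟨n, rfl⟩ := he x
      exact ⟨n + 1, Subgroup.subset_closure ⟨n, Nat.lt_succ_self n, rfl⟩⟩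
    let l : Γ → ℕ := fun x => Nat.find (hex x)
    have hl : ∀ x n, l x ≤ n ↔ x ∈ F n := by
      intro x n
      constructor
      · intro h
        exact hFmono h (Nat.find_spec (hex x))
      · intro h
        exact Nat.find_min' _ h
    have hmul : ∀ x y, l (x * y) ≤ l x + l y := by
      intro x y
      rw [hl]
      exact (F _).mul_mem ((hl _ _).1 (Nat.le_add_right _ _)) ((hl _ _).1 (Nat.le_add_left _ _))
    have hinv : ∀ x, l x⁻¹ = l x := by
      intro x
      apply le_antisymm
      · rw [hl]; exact (F _).inv_mem ((hl _ _).1 le_rfl)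
      · rw [hl]
        have := (F (l x⁻¹)).inv_mem ((hl x⁻¹ _).1 le_rfl)
        rwa [inv_inv] at this
    refine ⟨fun x y => (l (x⁻¹ * y) : ℝ), ?_, ?_, ?_, ?_, ?_, ?_⟩
    · intro x
      have : l (x⁻¹ * x) ≤ 0 := by
        rw [hl, inv_mul_cancel]; exact (F 0).one_mem
      have h0 : l (x⁻¹ * x) = 0 := by omega
      simp only [h0]; norm_num
    · intro x y hxy
      by_contra hcon
      push Not at hcon
      have h1 : l (x⁻¹ * y) ≤ 0 := by exact_mod_cast hcon
      rw [hl, hF0, Subgroup.mem_bot, inv_mul_eq_one] at h1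
      exact hxy h1
    · intro x y
      have : (x⁻¹ * y)⁻¹ = y⁻¹ * x := by group
      show (l (x⁻¹ * y) : ℝ) = l (y⁻¹ * x)
      rw [← this, hinv]
    · intro x y z
      have : x⁻¹ * z = (x⁻¹ * y) * (y⁻¹ * z) := by group
      show (l (x⁻¹ * z) : ℝ) ≤ l (x⁻¹ * y) + l (y⁻¹ * z)
      rw [this]
      exact_mod_cast hmul _ _
    · intro g x y
      have : (g * x)⁻¹ * (g * y) = x⁻¹ * y := by group
      show (l ((g * x)⁻¹ * (g * y)) : ℝ) = l (x⁻¹ * y)
      rw [this]
    · intro r
      apply (hFf ⌊r⌋₊).subset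
      intro x hx
      have h1 : (l (1⁻¹ * x) : ℝ) ≤ r := hx
      rw [inv_one, one_mul] at h1
      exact (hl _ _).1 (Nat.le_floor h1)
  · intro d hd 𝔈 hbdd hdec
    apply hdec
    intro r hr
    have hB : {x : Γ | d 1 x ≤ r + 1}.Finite := hd.proper (r + 1)
    set F : Subgroup Γ := Subgroup.closure {x : Γ | d 1 x ≤ r + 1} with hF
    have hFf : (F : Set Γ).Finite := hΓ _ hB
    have hcos : ∀ x y : Γ, x⁻¹ * y ∉ F → r + 1 ≤ d x y := by
      intro x y h
      by_contra hcon
      push Not at hcon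
      apply h
      apply Subgroup.subset_closure
      show d 1 (x⁻¹ * y) ≤ r + 1
      rw [left_one hd]
      exact hcon.le
    refine ⟨{A | ∃ g : Γ, A = {x | g⁻¹ * x ∈ F}}, hbdd _ ?_, ?_⟩
    · obtain ⟨C, hC⟩ := (hFf.image (fun x => d 1 x)).bddAbove
      refine ⟨C, ?_⟩
      rintro A ⟨g, rfl⟩ x hx y hy
      rw [← left_one hd]
      apply hC
      refine ⟨x⁻¹ * y, ?_, rfl⟩
      have : x⁻¹ * y = (g⁻¹ * x)⁻¹ * (g⁻¹ * y) := by group
      rw [this]
      exact F.mul_mem (F.inv_mem hx) hy
    · rintro Z hZ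
      rw [Set.mem_singleton_iff] at hZ
      subst hZ
      refine ⟨{A | ∃ g : Γ, A = {x | g⁻¹ * x ∈ F}}, ∅, le_rfl, Set.empty_subset _, ?_, ?_, ?_⟩
      · symm
        rw [Set.eq_univ_iff_forall]
        intro x
        left
        refine ⟨{y | x⁻¹ * y ∈ F}, ⟨x, rfl⟩, ?_⟩
        show x⁻¹ * x ∈ F
        rw [inv_mul_cancel]
        exact F.one_mem
      · rintro A ⟨g, rfl⟩ B ⟨h, rfl⟩ hne
        refine ⟨r + 1, by linarith, ?_⟩
        intro a ha b hb
        apply hcos
        intro hab
        apply hne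
        have hgh : g⁻¹ * h ∈ F := by
          have : g⁻¹ * h = (g⁻¹ * a) * (a⁻¹ * b) * (h⁻¹ * b)⁻¹ := by group
          rw [this]
          exact F.mul_mem (F.mul_mem ha hab) (F.inv_mem hb)
        ext x
        show g⁻¹ * x ∈ F ↔ h⁻¹ * x ∈ F
        have : g⁻¹ * x = (g⁻¹ * h) * (h⁻¹ * x) := by group
        rw [this]
        exact F.mul_mem_cancel_left hgh
      · intro A hA
        exact absurd hA (Set.notMem_empty _)

end Dec

end Pool.Agent.Y469.FD
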